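import Pool.Agent.K1H95.EO.Stm

set_option autoImplicit false

/-! Project EO, pieces SQ and LEV. -/

namespace Pool.Agent.K1H64.EO

open Pool.Agent.K1H95.EO

theorem bil_eq {J : Type} (d : J → J → ℚ) (h1 : ∀ x, d x x = 1) (h0 : ∀ x y, x ≠ y → d x y = 0)
    (a : J →₀ ℤ) : Bil d a a = ∑ x ∈ a.support, (a x : ℚ) ^ 2 := by
  unfold Bil Finsupp.sum
  refine Finset.sum_congr rfl fun x hx => ?_
  show ∑ y ∈ a.support, (a x : ℚ) * (a y : ℚ) * d x y = (a x : ℚ) ^ 2
  rw [Finset.sum_eq_single x]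
  · rw [h1]; ring
  · intro y _ hy
    rw [h0 x y (Ne.symm hy)]; ring
  · intro h; exact absurd hx h

/-- **Piece SQ.** -/
theorem t_SQ : S_SQ := by
  intro J d h1 h0 a
  rw [bil_eq d h1 h0]
  refine ⟨Finset.sum_nonneg fun x _ => sq_nonneg _, ?_, ?_⟩
  · intro ha
    obtain ⟨x, hx⟩ := Finsupp.support_nonempty_iff.2 ha
    have h2 : (a x : ℚ) ^ 2 ≤ ∑ x ∈ a.support, (a x : ℚ) ^ 2 :=
      Finset.single_le_sum (f := fun x => (a x : ℚ) ^ 2) (fun x _ => sq_nonneg _) hx
    have h3 : a x ≠ 0 := Finsupp.mem_support_iff.1 hx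
    have h4 : (1 : ℤ) ≤ (a x) ^ 2 := by
      have : 0 < (a x) ^ 2 := by positivity
      omega
    have h5 : (1 : ℚ) ≤ (a x : ℚ) ^ 2 := by exact_mod_cast h4
    linarith
  · have h2 : (nrm a : ℚ) = ∑ x ∈ a.support, |(a x : ℚ)| := by
      unfold nrm Finsupp.sum
      rw [Nat.cast_sum]
      refine Finset.sum_congr rfl fun x _ => ?_
      rw [Nat.cast_natAbs]
      push_cast
      rfl
    rw [h2, sq, Finset.sum_mul]
    refine Finset.sum_le_sum fun x hx => ?_
    have h3 : |(a x : ℚ)| ≤ ∑ x ∈ a.support, |(a x : ℚ)| :=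
      Finset.single_le_sum (f := fun x => |(a x : ℚ)|) (fun x _ => abs_nonneg _) hx
    calc (a x : ℚ) ^ 2 = |(a x : ℚ)| * |(a x : ℚ)| := by rw [← sq, sq_abs]
      _ ≤ _ := mul_le_mul_of_nonneg_left h3 (abs_nonneg _)

theorem drop_res {E : Type} (x : ℕ → E) (m k : ℕ) :
    (PiNat.res x (m + k)).drop k = PiNat.res x m := by
  induction k with
  | zero => rfl
  | succ k ih =>
    show (PiNat.res x (m + k).succ).drop (k + 1) = _
    rw [PiNat.res_succ, List.drop_succ_cons]
    exact ih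

/-- **Piece LEV.** -/
theorem t_LEV : S_LEV := by
  classical
  intro E I c hc a
  constructor
  · intro m n hmn h
    obtain ⟨k, rfl⟩ := Nat.exists_eq_add_of_le hmn
    have h1 : typ c m a = (typ c (m + k) a).mapDomain (List.drop k) := by
      unfold typ
      rw [← Finsupp.mapDomain_comp]
      congr 1
      funext i
      exact (drop_res (c i) m k).symm
    rw [h1, h, Finsupp.mapDomain_zero]
  · intro ha
    obtain ⟨x, hx⟩ := Finsupp.support_nonempty_iff.2 ha
    set n := (a.support ×ˢ a.support).sup (fun p => PiNat.firstDiff (c p.1) (c p.2)) + 1 with hn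
    refine ⟨n, fun h => ?_⟩
    have hinj : Set.InjOn (fun i => pre n (c i)) (a.support : Set I) := by
      intro u hu v hv huv
      by_contra hne
      have h1 : c u ≠ c v := fun h => hne (hc h)
      have h2 : PiNat.firstDiff (c u) (c v) < n := by
        rw [hn, Nat.lt_succ_iff]
        exact Finset.le_sup (f := fun p : I × I => PiNat.firstDiff (c p.1) (c p.2))
          (Finset.mem_product.2 ⟨hu, hv⟩ : ((u, v) : I × I) ∈ a.support ×ˢ a.support)
      exact PiNat.apply_firstDiff_ne h1 (PiNat.res_eq_res.1 huv h2)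
    have h3 := Finsupp.mapDomain_apply' (a.support : Set I) a (Set.Subset.refl _) hinj hx
    unfold typ at h
    rw [h] at h3
    exact Finsupp.mem_support_iff.1 hx h3.symm

end Pool.Agent.K1H64.EO
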